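import Mathlib

set_option autoImplicit false

namespace Pool.Agent.MP_119ce6_al

open MvPolynomial

universe u v

section basic

variable {ι : Type v} {K : Type u} [Field K]

/-- Polynomials all of whose monomials have some exponent not congruent to `-1` modulo `q`. -/
def N (ι : Type v) (K : Type u) [Field K] (q : ℕ) : Submodule K (MvPolynomial ι K) where
  carrier := {f | ∀ e : ι →₀ ℕ, (∀ i, q ∣ e i + 1) → coeff e f = 0}
  add_mem' := by
    intro a b ha hb e he
    rw [coeff_add, ha e he, hb e he, add_zero]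
  zero_mem' := by
    intro e _
    simp
  smul_mem' := by
    intro c f hf e he
    rw [coeff_smul, hf e he, smul_zero]

theorem mem_N {q : ℕ} {f : MvPolynomial ι K} :
    f ∈ N ι K q ↔ ∀ e : ι →₀ ℕ, (∀ i, q ∣ e i + 1) → coeff e f = 0 := Iff.rfl

theorem coeff_pow_q (p k : ℕ) [Fact p.Prime] [CharP K p] (g : MvPolynomial ι K)
    (b : ι →₀ ℕ) (m : ι) (hm : ¬ p ^ k ∣ b m) : coeff b (g ^ p ^ k) = 0 := by
  classical
  have : ExpChar (MvPolynomial ι K) p := by
    have : CharP (MvPolynomial ι K) p := inferInstance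
    exact ExpChar.prime (Fact.out)
  rw [g.as_sum, sum_pow_char_pow, coeff_sum]
  apply Finset.sum_eq_zero
  intro a _
  rw [monomial_pow, coeff_monomial, if_neg]
  rintro rfl
  apply hm
  simp

theorem pow_q_mul_mem (p k : ℕ) [Fact p.Prime] [CharP K p] (g f : MvPolynomial ι K)
    (hf : f ∈ N ι K (p ^ k)) : g ^ p ^ k * f ∈ N ι K (p ^ k) := by
  classical
  intro e he
  rw [coeff_mul]
  apply Finset.sum_eq_zero
  rintro ⟨a, b⟩ hab
  rw [Finset.HasAntidiagonal.mem_antidiagonal] at hab
  dsimp only at hab ⊢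
  by_cases h : ∀ i, p ^ k ∣ a i
  · have : coeff b f = 0 := by
      apply hf
      intro i
      have h1 := he i
      rw [← hab] at h1
      simp only [Finsupp.coe_add, Pi.add_apply] at h1
      rw [add_assoc] at h1
      exact (Nat.dvd_add_right (h i)).1 h1
    simp [this]
  · push Not at h
    obtain ⟨m, hm⟩ := h
    simp [coeff_pow_q p k g a m hm]

theorem monomial_mem_N {q : ℕ} {r : ι →₀ ℕ} (c : K) (i : ι) (hi : ¬ q ∣ r i + 1) :
    monomial r c ∈ N ι K q := by
  classical
  intro e he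
  rw [coeff_monomial, if_neg]
  rintro rfl
  exact hi (he i)

theorem X_pow_mul_mem {q : ℕ} (k : ι) (j : ℕ) (hj : j + 1 < q) (w : MvPolynomial ι K)
    (hw : ∀ a : ι →₀ ℕ, coeff a w ≠ 0 → a k = 0) : X k ^ j * w ∈ N ι K q := by
  classical
  intro e he
  by_contra hne
  rw [X_pow_eq_monomial, coeff_monomial_mul'] at hne
  split_ifs at hne with h
  · rw [one_mul] at hne
    have h1 := hw _ hne
    have h2 := h k
    simp only [Finsupp.coe_tsub, Pi.sub_apply, Finsupp.single_eq_same] at h1 h2
    have h3 : e k = j := by omega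
    have h4 := he k
    rw [h3] at h4
    exact absurd (Nat.le_of_dvd (Nat.succ_pos j) h4) (by omega)
  · exact hne rfl

theorem map_lift_surjective (K : Type u) [Field K] :
    ∃ π : MvPolynomial K ℤ →+* K, Function.Surjective π := by
  refine ⟨eval₂Hom (Int.castRingHom K) id, fun a => ⟨X a, ?_⟩⟩
  simp

theorem coeff_logder (p k : ℕ) [Fact p.Prime] [CharP K p] (g : MvPolynomial ι K)
    (i m : ι) (him : m ≠ i) (b : ι →₀ ℕ) (hi : p ^ k ∣ b i + 1) (hm : ¬ p ^ k ∣ b m) :
    coeff b (g ^ (p ^ k - 1) * pderiv i g) = 0 := by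
  classical
  obtain ⟨π, hπ⟩ := map_lift_surjective K
  obtain ⟨g', rfl⟩ := MvPolynomial.map_surjective π hπ g
  set q := p ^ k with hq
  have hq0 : q ≠ 0 := pow_ne_zero _ (Fact.out : p.Prime).ne_zero
  obtain ⟨u, hu⟩ := hi
  have key : coeff b (g' ^ (q - 1) * pderiv i g') =
      coeff (b + Finsupp.single i 1) (g' ^ q) * (u : MvPolynomial K ℤ) := by
    have h1 := coeff_pderiv (i := i) (g' ^ q) b
    rw [pderiv_pow, mul_assoc] at h1
    have h2 : ((q : ℕ) : MvPolynomial ι (MvPolynomial K ℤ)) = C ((q : ℕ) : MvPolynomial K ℤ) := by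
      simp
    rw [h2, coeff_C_mul] at h1
    have h3 : ((b i : ℕ) : MvPolynomial K ℤ) + 1 = (q : MvPolynomial K ℤ) * u := by
      exact_mod_cast congrArg (Nat.cast : ℕ → MvPolynomial K ℤ) hu
    rw [h3] at h1
    have hqz : ((q : ℕ) : MvPolynomial K ℤ) ≠ 0 := by
      exact_mod_cast hq0
    apply mul_left_cancel₀ hqz
    rw [h1]
    ring
  have h4 : coeff b ((map π g') ^ (q - 1) * pderiv i (map π g')) =
      π (coeff b (g' ^ (q - 1) * pderiv i g')) := by
    rw [← coeff_map, map_mul, map_pow, pderiv_map]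
  rw [h4, key, map_mul, ← coeff_map, map_pow]
  rw [coeff_pow_q p k (map π g') _ m, zero_mul]
  rw [← hq]
  simpa [Finsupp.single_apply, him.symm] using hm

/-- The smallness condition on `h` with respect to the variable `k`. -/
def Small (q : ℕ) (k : ι) (h : MvPolynomial ι K) : Prop :=
  ∀ a : ι →₀ ℕ, coeff a h ≠ 0 → a k = 0 ∧ ∃ m, m ≠ k ∧ ¬ q ∣ a m + 1

theorem logder_mul_small_mem (p k : ℕ) [Fact p.Prime] [CharP K p] (g h : MvPolynomial ι K)
    (i : ι) (hh : Small (p ^ k) i h) :
    g ^ (p ^ k - 1) * pderiv i g * h ∈ N ι K (p ^ k) := by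
  classical
  rw [h.as_sum, Finset.mul_sum]
  apply Submodule.sum_mem
  intro a ha
  rw [mem_support_iff] at ha
  obtain ⟨hai, m, hmi, hm⟩ := hh a ha
  intro e he
  rw [coeff_mul_monomial']
  split_ifs with hle
  · rw [coeff_logder p k g i m hmi, zero_mul]
    · have h1 := he i
      simpa [hai] using h1
    · intro h2
      apply hm
      have h3 := he m
      have h4 := hle m
      simp only [Finsupp.coe_tsub, Pi.sub_apply] at h2
      have h5 : e m + 1 = (e m - a m) + (a m + 1) := by omega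
      rw [h5] at h3
      exact (Nat.dvd_add_right h2).1 h3
  · rfl

end basic

end Pool.Agent.MP_119ce6_al
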