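import Mathlib

set_option autoImplicit false

namespace Pool.Agent.MP_119ce6_al

universe u

/-- The automorphism group of the free associative unital algebra in `n` variables. -/
abbrev AutFree (K : Type u) [Field K] (n : ℕ) : Type u :=
  FreeAlgebra K (Fin n) ≃ₐ[K] FreeAlgebra K (Fin n)

/-- `φ` is affine: `x_i ↦ ∑_j A_ij x_j + b_i` with `A` invertible. -/
def IsAffine {K : Type u} [Field K] {n : ℕ} (φ : AutFree K n) : Prop :=
  ∃ (A : Matrix (Fin n) (Fin n) K) (b : Fin n → K), IsUnit A ∧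
    ∀ i, φ (FreeAlgebra.ι K i) =
      ∑ j, A i j • FreeAlgebra.ι K j + algebraMap K (FreeAlgebra K (Fin n)) (b i)

/-- `φ` is the automorphism `σ`: the last generator `x_n` goes to `x_n + x_1 x_2`, the other
generators are fixed (the generators are indexed by `0, …, n - 1`). -/
def IsSigma {K : Type u} [Field K] {n : ℕ} (hn : 4 ≤ n) (φ : AutFree K n) : Prop :=
  φ (FreeAlgebra.ι K ⟨n - 1, by omega⟩) = FreeAlgebra.ι K ⟨n - 1, by omega⟩ +
      FreeAlgebra.ι K ⟨0, by omega⟩ * FreeAlgebra.ι K ⟨1, by omega⟩ ∧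
    ∀ i : Fin n, i ≠ ⟨n - 1, by omega⟩ → φ (FreeAlgebra.ι K i) = FreeAlgebra.ι K i

/-- `φ` is elementary of degree at most `d`: for some `k` it maps `x_k` to `x_k + f`, where `f` is
a linear combination of words of length at most `d` in the generators other than `x_k`, and it
fixes the generators other than `x_k`. -/
def IsElementary {K : Type u} [Field K] {n : ℕ} (d : ℕ) (φ : AutFree K n) : Prop :=
  ∃ (k : Fin n) (f : FreeAlgebra K (Fin n)),
    f ∈ Submodule.span K {w : FreeAlgebra K (Fin n) |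
      ∃ l : List (Fin n), l.length ≤ d ∧ k ∉ l ∧ w = (l.map (FreeAlgebra.ι K)).prod} ∧
    φ (FreeAlgebra.ι K k) = FreeAlgebra.ι K k + f ∧
    ∀ i, i ≠ k → φ (FreeAlgebra.ι K i) = FreeAlgebra.ι K i

end Pool.Agent.MP_119ce6_al
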