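import Mathlib
import Pool.Agent.MP_119ce6_al.Core

set_option autoImplicit false

namespace Pool.Agent.MP_119ce6_al

open MvPolynomial

universe u v

section flux

variable {ι : Type v} {K : Type u} [Field K] [Fintype ι] [DecidableEq ι]

/-- Jacobian matrix of an algebra endomorphism of the polynomial ring. -/
noncomputable def J (F : MvPolynomial ι K →ₐ[K] MvPolynomial ι K) :
    Matrix ι ι (MvPolynomial ι K) :=
  Matrix.of fun i j => pderiv j (F (X i))

theorem chain (G : MvPolynomial ι K →ₐ[K] MvPolynomial ι K) (f : MvPolynomial ι K) (j : ι) :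
    pderiv j (G f) = ∑ l, G (pderiv l f) * pderiv j (G (X l)) := by
  induction f using MvPolynomial.induction_on with
  | C a =>
    have : G (C a) = C a := by
      have := G.commutes a
      simpa [MvPolynomial.algebraMap_eq] using this
    simp [this]
  | add p q hp hq =>
    simp only [map_add, hp, hq, add_mul, Finset.sum_add_distrib]
  | mul_X p i hp =>
    simp only [map_mul, pderiv_mul, hp, pderiv_X, map_add, add_mul, Finset.sum_add_distrib]
    congr 1
    · rw [Finset.sum_mul]
      apply Finset.sum_congr rfl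
      intro l _
      ring
    · rw [Finset.sum_eq_single i]
      · simp
      · intro l _ hl
        simp [Pi.single_apply, hl.symm]
      · intro h
        exact absurd (Finset.mem_univ i) h

theorem J_comp (G F : MvPolynomial ι K →ₐ[K] MvPolynomial ι K) :
    J (G.comp F) = (J F).map G * J G := by
  ext i j
  simp only [J, Matrix.of_apply, AlgHom.comp_apply, Matrix.mul_apply, Matrix.map_apply]
  rw [chain]

/-- The flux condition. -/
def Flux (q : ℕ) (t : ι) (F : MvPolynomial ι K →ₐ[K] MvPolynomial ι K) : Prop :=
  ∃ c : K, ∀ g : MvPolynomial ι K,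
    g ^ (q - 1) * (∑ i, pderiv i g * (F (X t) * (J F).adjugate i t) -
      C c * (pderiv t g * X t)) ∈ N ι K q

/-- Endomorphisms which can be composed with. -/
structure Good (q : ℕ) (t : ι) (G : MvPolynomial ι K →ₐ[K] MvPolynomial ι K) : Prop where
  surj : Function.Surjective G
  stab : ∀ f ∈ N ι K q, G f ∈ N ι K q
  det : ∃ δ : K, (J G).det = C δ
  flux : Flux q t G

theorem Flux.comp {q : ℕ} {t : ι} {G F : MvPolynomial ι K →ₐ[K] MvPolynomial ι K}
    (hG : Good q t G) (hF : Flux q t F) : Flux q t (G.comp F) := by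
  obtain ⟨c, hc⟩ := hF
  obtain ⟨c', hc'⟩ := hG.flux
  obtain ⟨δ, hδ⟩ := hG.det
  refine ⟨c * c', fun g => ?_⟩
  obtain ⟨g', rfl⟩ := hG.surj g
  have e1 : (J (G.comp F)).adjugate = (J G).adjugate * ((J F).adjugate).map G := by
    rw [J_comp, Matrix.adjugate_mul_distrib]
    congr 1
    exact (RingHom.map_adjugate (G : MvPolynomial ι K →+* MvPolynomial ι K) (J F)).symm
  have e2 : ∀ l, ∑ i, pderiv i (G g') * (J G).adjugate i l = C δ * G (pderiv l g') := by
    intro l
    have h1 : ∀ i, pderiv i (G g') * (J G).adjugate i l =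
        ∑ m, G (pderiv m g') * (J G m i * (J G).adjugate i l) := by
      intro i
      rw [chain, Finset.sum_mul]
      apply Finset.sum_congr rfl
      intro m _
      simp only [J, Matrix.of_apply]
      ring
    simp_rw [h1]
    rw [Finset.sum_comm]
    simp_rw [← Finset.mul_sum, ← Matrix.mul_apply, Matrix.mul_adjugate, hδ]
    simp [Matrix.one_apply, mul_comm]
  have e3 : ∑ i, pderiv i (G g') * ((G.comp F) (X t) * (J (G.comp F)).adjugate i t) =
      C δ * G (∑ l, pderiv l g' * (F (X t) * (J F).adjugate l t)) := by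
    rw [e1]
    simp only [Matrix.mul_apply, Matrix.map_apply, AlgHom.comp_apply, map_sum, map_mul,
      Finset.mul_sum]
    rw [Finset.sum_comm]
    apply Finset.sum_congr rfl
    intro l _
    have := e2 l
    calc ∑ i, pderiv i (G g') * (G (F (X t)) * ((J G).adjugate i l * G ((J F).adjugate l t)))
        = (∑ i, pderiv i (G g') * (J G).adjugate i l) * (G (F (X t)) * G ((J F).adjugate l t)) := by
          rw [Finset.sum_mul]
          apply Finset.sum_congr rfl
          intro i _
          ring
      _ = C δ * (G (pderiv l g') * (G (F (X t)) * G ((J F).adjugate l t))) := by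
          rw [this]; ring
  have e4 : ∑ i, pderiv i (G g') * (G (X t) * (J G).adjugate i t) =
      C δ * G (pderiv t g' * X t) := by
    calc ∑ i, pderiv i (G g') * (G (X t) * (J G).adjugate i t)
        = (∑ i, pderiv i (G g') * (J G).adjugate i t) * G (X t) := by
          rw [Finset.sum_mul]
          apply Finset.sum_congr rfl
          intro i _
          ring
      _ = _ := by rw [e2, map_mul]; ring
  have h1 := (N ι K q).smul_mem δ (hG.stab _ (hc g'))
  have h2 := (N ι K q).smul_mem c (hc' (G g'))
  have h3 := (N ι K q).add_mem h1 h2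
  convert h3 using 1
  rw [e3, e4]
  have hCc : G (C c) = C c := by
    have := G.commutes c
    simpa [MvPolynomial.algebraMap_eq] using this
  simp only [map_mul, map_sub, map_pow, hCc, MvPolynomial.smul_eq_C_mul, C_mul]
  ring

theorem Good.comp {q : ℕ} {t : ι} {G F : MvPolynomial ι K →ₐ[K] MvPolynomial ι K}
    (hG : Good q t G) (hF : Good q t F) : Good q t (G.comp F) where
  surj := by
    rw [AlgHom.coe_comp]
    exact hG.surj.comp hF.surj
  stab := fun f hf => hG.stab _ (hF.stab f hf)
  det := by
    obtain ⟨δ, hδ⟩ := hG.det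
    obtain ⟨δ', hδ'⟩ := hF.det
    refine ⟨δ' * δ, ?_⟩
    rw [J_comp, Matrix.det_mul, hδ]
    have : ((J F).map G).det = G ((J F).det) :=
      (RingHom.map_det (G : MvPolynomial ι K →+* MvPolynomial ι K) (J F)).symm
    rw [this, hδ']
    have := G.commutes δ'
    simp only [MvPolynomial.algebraMap_eq] at this
    rw [this, C_mul]
  flux := Flux.comp hG hF.flux

theorem Flux.id (q : ℕ) (t : ι) : Flux q t (AlgHom.id K (MvPolynomial ι K)) := by
  refine ⟨1, fun g => ?_⟩
  have : J (AlgHom.id K (MvPolynomial ι K)) = 1 := by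
    ext i j
    simp [J, pderiv_X, Matrix.one_apply, Pi.single_apply]
  rw [this, Matrix.adjugate_one]
  have h : ∑ i, pderiv i g * ((AlgHom.id K (MvPolynomial ι K)) (X t) *
      (1 : Matrix ι ι (MvPolynomial ι K)) i t) - C 1 * (pderiv t g * X t) = 0 := by
    simp [Matrix.one_apply]
  rw [h, mul_zero]
  exact Submodule.zero_mem _

end flux

end Pool.Agent.MP_119ce6_al
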