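import Mathlib
import Pool.Agent.MP_119ce6_al.Flux

set_option autoImplicit false

namespace Pool.Agent.MP_119ce6_al

open MvPolynomial

universe u v

section gens

variable {ι : Type v} {K : Type u} [Field K] [Fintype ι] [DecidableEq ι]

theorem coeff_supported {k : ι} {w : MvPolynomial ι K} (hw : w ∈ supported K ({k}ᶜ : Set ι)) :
    ∀ a : ι →₀ ℕ, coeff a w ≠ 0 → a k = 0 := by
  intro a ha
  rw [mem_supported] at hw
  by_contra hk
  have : k ∈ w.vars := by
    rw [mem_vars_iff_mem_support]
    exact ⟨a, mem_support_iff.2 ha, Finsupp.mem_support_iff.2 hk⟩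
  have h2 := hw this
  simp at h2

/-- Elementary endomorphism `x_k ↦ x_k + h`. -/
noncomputable def elem (k : ι) (h : MvPolynomial ι K) :
    MvPolynomial ι K →ₐ[K] MvPolynomial ι K :=
  aeval (Function.update X k (X k + h))

theorem elem_X_self (k : ι) (h : MvPolynomial ι K) : elem k h (X k) = X k + h := by
  simp [elem]

theorem elem_X_ne {k i : ι} (hi : i ≠ k) (h : MvPolynomial ι K) : elem k h (X i) = X i := by
  simp [elem, Function.update_of_ne hi]

theorem elem_supported {k : ι} {w : MvPolynomial ι K} (hw : w ∈ supported K ({k}ᶜ : Set ι))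
    (h : MvPolynomial ι K) : elem k h w = w := by
  rw [supported_eq_adjoin_X] at hw
  induction hw using Algebra.adjoin_induction with
  | mem x hx =>
    obtain ⟨i, hi, rfl⟩ := hx
    have hik : i ≠ k := hi
    simp [elem_X_ne hik]
  | algebraMap r => exact (elem k h).commutes r
  | add x y _ _ hx hy => rw [map_add, hx, hy]
  | mul x y _ _ hx hy => rw [map_mul, hx, hy]

theorem elem_mem_N (p n : ℕ) [Fact p.Prime] [CharP K p] (k : ι) (h : MvPolynomial ι K)
    (hh : h ∈ supported K ({k}ᶜ : Set ι)) (f : MvPolynomial ι K) (hf : f ∈ N ι K (p ^ n)) :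
    elem k h f ∈ N ι K (p ^ n) := by
  classical
  set q := p ^ n with hq
  have hq0 : 0 < q := pow_pos (Fact.out : p.Prime).pos _
  rw [f.as_sum, map_sum]
  apply Submodule.sum_mem
  intro e he
  rw [mem_support_iff] at he
  have h1 : ∃ i, ¬ q ∣ e i + 1 := by
    by_contra hcon
    push Not at hcon
    exact he (hf e hcon)
  obtain ⟨i, hi⟩ := h1
  generalize coeff e f = c
  let b : ι →₀ ℕ := Finsupp.equivFunOnFinite.symm fun i => e i / q
  let r : ι →₀ ℕ := Finsupp.equivFunOnFinite.symm fun i => e i % q
  have hbr : e = q • b + r := by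
    ext j
    simp [b, r, Nat.div_add_mod]
  have hr : ∀ j, r j < q := fun j => by simpa [r] using Nat.mod_lt _ hq0
  have hri : ¬ q ∣ r i + 1 := by
    intro hcon
    apply hi
    rw [hbr]
    simp only [Finsupp.coe_add, Finsupp.coe_smul, Pi.add_apply, Pi.smul_apply, smul_eq_mul]
    rw [add_assoc]
    exact Dvd.dvd.add (Dvd.intro _ rfl) hcon
  have hmon : monomial e c = (monomial b 1) ^ q * monomial r c := by
    rw [monomial_pow, monomial_mul, one_pow, one_mul, ← hbr]
  rw [hmon, map_mul, map_pow]
  apply pow_q_mul_mem
  -- now the reduced monomial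
  have hw0 : C c * ∏ j ∈ Finset.univ.erase k, (X j : MvPolynomial ι K) ^ r j ∈
      supported K ({k}ᶜ : Set ι) := by
    apply Subalgebra.mul_mem
    · exact Subalgebra.algebraMap_mem _ c
    · apply Subalgebra.prod_mem
      intro j hj
      apply Subalgebra.pow_mem
      rw [X_mem_supported]
      simpa using (Finset.mem_erase.1 hj).1
  have hmr : monomial r c = X k ^ r k *
      (C c * ∏ j ∈ Finset.univ.erase k, (X j : MvPolynomial ι K) ^ r j) := by
    rw [monomial_eq, Finsupp.prod_fintype _ _ (by simp),
      ← Finset.mul_prod_erase Finset.univ _ (Finset.mem_univ k)]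
    ring
  have hrk : monomial r c ∈ N ι K q := monomial_mem_N c i hri
  rw [hmr, map_mul, map_pow, elem_X_self, elem_supported hw0, add_pow, Finset.sum_mul]
  apply Submodule.sum_mem
  intro j hj
  rw [Finset.mem_range] at hj
  by_cases hjq : j + 1 < q
  · have : X k ^ j * h ^ (r k - j) * ((r k).choose j : MvPolynomial ι K) *
        (C c * ∏ j ∈ Finset.univ.erase k, (X j : MvPolynomial ι K) ^ r j) =
        X k ^ j * (h ^ (r k - j) * ((r k).choose j : MvPolynomial ι K) *
        (C c * ∏ j ∈ Finset.univ.erase k, (X j : MvPolynomial ι K) ^ r j)) := by ring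
    rw [this]
    apply X_pow_mul_mem _ _ hjq
    apply coeff_supported
    apply Subalgebra.mul_mem _ _ hw0
    apply Subalgebra.mul_mem
    · exact Subalgebra.pow_mem _ hh _
    · exact natCast_mem _ _
  · have h3 := hr k
    have h4 : j = r k := by omega
    subst h4
    rw [Nat.sub_self, pow_zero, mul_one, Nat.choose_self, Nat.cast_one, mul_one, ← hmr]
    exact hrk

theorem J_elem (k : ι) (h : MvPolynomial ι K) :
    J (elem k h) = 1 + Matrix.replicateCol Unit (Pi.single k 1 : ι → MvPolynomial ι K) *
      Matrix.replicateRow Unit (fun j => pderiv j h) := by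
  refine Matrix.ext fun i j => ?_
  simp only [J, Matrix.of_apply, Matrix.add_apply, Matrix.mul_apply, Matrix.one_apply]
  by_cases hi : i = k
  · subst hi
    simp [elem_X_self, pderiv_X, Pi.single_apply]
  · simp [elem_X_ne hi, pderiv_X, Pi.single_apply, hi]

theorem pderiv_supported {k : ι} {h : MvPolynomial ι K}
    (hh : h ∈ supported K ({k}ᶜ : Set ι)) : pderiv k h = 0 := by
  apply pderiv_eq_zero_of_notMem_vars
  rw [mem_supported] at hh
  intro hk
  have := hh hk
  simp at this

theorem adj_elem (k : ι) (h : MvPolynomial ι K) (hh : h ∈ supported K ({k}ᶜ : Set ι)) :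
    (J (elem k h)).adjugate = 1 - Matrix.replicateCol Unit (Pi.single k 1 : ι → MvPolynomial ι K) *
      Matrix.replicateRow Unit (fun j => pderiv j h) := by
  have hdet : (J (elem k h)).det = 1 := by
    rw [J_elem, Matrix.det_one_add_replicateCol_mul_replicateRow]
    simp [dotProduct, Pi.single_apply, pderiv_supported hh]
  set A : Matrix ι ι (MvPolynomial ι K) := Matrix.replicateCol Unit (Pi.single k 1 : ι → MvPolynomial ι K) *
      Matrix.replicateRow Unit (fun j => pderiv j h) with hA
  have hAA : A * A = 0 := by
    refine Matrix.ext fun i j => ?_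
    simp only [hA, Matrix.mul_apply, Matrix.replicateCol_apply, Matrix.replicateRow_apply,
      Matrix.zero_apply]
    apply Finset.sum_eq_zero
    intro l _
    by_cases hl : l = k
    · subst hl
      simp [pderiv_supported hh]
    · simp [Pi.single_apply, hl]
  have h1 : J (elem k h) * (1 - A) = 1 := by
    rw [J_elem, ← hA]
    have : (1 + A) * (1 - A) = 1 - A * A := by noncomm_ring
    rw [this, hAA, sub_zero]
  calc (J (elem k h)).adjugate = (J (elem k h)).adjugate * (J (elem k h) * (1 - A)) := by
        rw [h1, mul_one]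
    _ = 1 - A := by
        rw [← mul_assoc, Matrix.adjugate_mul, hdet, one_smul, one_mul]

theorem Small.pderiv_mul {q : ℕ} {k t : ι} {h : MvPolynomial ι K} (hkt : k ≠ t)
    (hh : Small q k h) : Small q k (pderiv t h * X t) := by
  classical
  intro a ha
  apply hh a
  intro h0
  apply ha
  rw [coeff_mul_X']
  split_ifs with hta
  · rw [coeff_pderiv]
    have : a - Finsupp.single t 1 + Finsupp.single t 1 = a := by
      apply tsub_add_cancel_of_le
      rw [Finsupp.single_le_iff]
      rw [Finsupp.mem_support_iff] at hta
      omega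
    rw [this, h0, zero_mul]
  · rfl

theorem Small.supported {q : ℕ} {k : ι} {h : MvPolynomial ι K}
    (hh : Small q k h) : h ∈ supported K ({k}ᶜ : Set ι) := by
  rw [mem_supported]
  intro i hi
  rw [Finset.mem_coe, mem_vars_iff_mem_support] at hi
  obtain ⟨d, hd, hid⟩ := hi
  rw [mem_support_iff] at hd
  have := (hh d hd).1
  rintro rfl
  exact (Finsupp.mem_support_iff.1 hid) this

theorem good_elem (p n : ℕ) [Fact p.Prime] [CharP K p] (t k : ι) (h : MvPolynomial ι K)
    (hh : Small (p ^ n) k h) : Good (p ^ n) t (elem k h) where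
  surj := by
    intro f
    refine ⟨elem k (-h) f, ?_⟩
    have : (elem k h).comp (elem k (-h)) = AlgHom.id K _ := by
      apply MvPolynomial.algHom_ext
      intro i
      by_cases hi : i = k
      · subst hi
        simp [elem_X_self, elem_supported hh.supported]
      · simp [elem_X_ne hi]
    exact DFunLike.congr_fun this f
  stab := fun f hf => elem_mem_N p n k h hh.supported f hf
  det := by
    refine ⟨1, ?_⟩
    rw [J_elem, Matrix.det_one_add_replicateCol_mul_replicateRow]
    simp [dotProduct, Pi.single_apply, pderiv_supported hh.supported]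
  flux := by
    refine ⟨1, fun g => ?_⟩
    rw [adj_elem k h hh.supported]
    by_cases hkt : k = t
    · subst hkt
      have h1 : ∑ i, pderiv i g * ((elem k h) (X k) *
          (1 - Matrix.replicateCol Unit (Pi.single k 1 : ι → MvPolynomial ι K) *
            Matrix.replicateRow Unit (fun j => pderiv j h) : Matrix ι ι (MvPolynomial ι K)) i k) =
          pderiv k g * (X k + h) := by
        simp only [Matrix.sub_apply, Matrix.mul_apply, Matrix.replicateCol_apply,
          Matrix.replicateRow_apply, pderiv_supported hh.supported, mul_zero,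
          Finset.sum_const_zero, sub_zero, elem_X_self, Matrix.one_apply]
        simp
      rw [h1]
      have h2 := logder_mul_small_mem p n g h k hh
      convert h2 using 1
      simp only [C_1]
      ring
    · have h1 : ∑ i, pderiv i g * ((elem k h) (X t) *
          (1 - Matrix.replicateCol Unit (Pi.single k 1 : ι → MvPolynomial ι K) *
            Matrix.replicateRow Unit (fun j => pderiv j h) : Matrix ι ι (MvPolynomial ι K)) i t) =
          pderiv t g * X t - pderiv k g * (pderiv t h * X t) := by
        simp only [Matrix.sub_apply, Matrix.mul_apply, Matrix.replicateCol_apply,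
          Matrix.replicateRow_apply, elem_X_ne (Ne.symm hkt), Matrix.one_apply, mul_sub,
          Finset.sum_sub_distrib]
        simp [Pi.single_apply]
        left
        ring
      rw [h1]
      have h2 := logder_mul_small_mem p n g _ k (hh.pderiv_mul hkt)
      have h3 := (N ι K (p ^ n)).neg_mem h2
      convert h3 using 1
      simp only [C_1]
      ring

/-- Diagonal endomorphism `x_i ↦ d_i x_i`. -/
noncomputable def dg (d : ι → K) : MvPolynomial ι K →ₐ[K] MvPolynomial ι K :=
  aeval (fun i => C (d i) * X i)

theorem dg_X (d : ι → K) (i : ι) : dg d (X i) = C (d i) * X i := by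
  simp [dg]

theorem dg_monomial (d : ι → K) (e : ι →₀ ℕ) (c : K) :
    dg d (monomial e c) = monomial e (c * ∏ i, d i ^ e i) := by
  rw [monomial_eq, map_mul, Finsupp.prod_fintype _ _ (by simp), map_prod]
  have h1 : dg d (C c) = C c := (dg d).commutes c
  rw [h1, monomial_eq, Finsupp.prod_fintype _ _ (by simp)]
  simp only [map_pow, dg_X, mul_pow, Finset.prod_mul_distrib, C_mul, map_prod, map_pow]
  ring

theorem good_dg (q : ℕ) (t : ι) (d : ι → K) (hd : ∀ i, d i ≠ 0) : Good q t (dg d) where
  surj := by
    intro f
    refine ⟨dg (fun i => (d i)⁻¹) f, ?_⟩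
    have : (dg d).comp (dg (fun i => (d i)⁻¹)) = AlgHom.id K _ := by
      apply MvPolynomial.algHom_ext
      intro i
      rw [AlgHom.comp_apply, dg_X, map_mul, dg_X]
      have h1 : dg d (C (d i)⁻¹) = C (d i)⁻¹ := (dg d).commutes _
      rw [h1, ← mul_assoc, ← C_mul, inv_mul_cancel₀ (hd i)]
      simp
    exact DFunLike.congr_fun this f
  stab := by
    classical
    intro f hf
    rw [f.as_sum, map_sum]
    apply Submodule.sum_mem
    intro e he
    rw [mem_support_iff] at he
    have h1 : ∃ i, ¬ q ∣ e i + 1 := by
      by_contra hcon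
      push Not at hcon
      exact he (hf e hcon)
    obtain ⟨i, hi⟩ := h1
    rw [dg_monomial]
    exact monomial_mem_N _ i hi
  det := by
    refine ⟨∏ i, d i, ?_⟩
    have : J (dg d) = Matrix.diagonal fun i => C (d i) := by
      refine Matrix.ext fun i j => ?_
      simp only [J, Matrix.of_apply, dg_X, pderiv_C_mul, pderiv_X, Matrix.diagonal_apply,
        Pi.single_apply]
      split_ifs <;> simp_all
    rw [this, Matrix.det_diagonal, map_prod]
  flux := by
    have : J (dg d) = Matrix.diagonal fun i => C (d i) := by
      refine Matrix.ext fun i j => ?_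
      simp only [J, Matrix.of_apply, dg_X, pderiv_C_mul, pderiv_X, Matrix.diagonal_apply,
        Pi.single_apply]
      split_ifs <;> simp_all
    refine ⟨∏ i, d i, fun g => ?_⟩
    rw [this, Matrix.adjugate_diagonal]
    have h1 : ∑ i, pderiv i g * (dg d (X t) * (Matrix.diagonal fun i =>
        ∏ j ∈ Finset.univ.erase i, (C (d j) : MvPolynomial ι K)) i t) -
        C (∏ i, d i) * (pderiv t g * X t) = 0 := by
      simp only [Matrix.diagonal_apply, mul_ite, mul_zero, Finset.sum_ite_eq', Finset.mem_univ,
        if_true, dg_X]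
      rw [← Finset.mul_prod_erase Finset.univ d (Finset.mem_univ t), C_mul, map_prod]
      ring
    rw [h1, mul_zero]
    exact Submodule.zero_mem _

/-- Affine endomorphism of the polynomial ring. -/
noncomputable def aff (A : Matrix ι ι K) (b : ι → K) :
    MvPolynomial ι K →ₐ[K] MvPolynomial ι K :=
  aeval (fun i => ∑ j, C (A i j) * X j + C (b i))

theorem aff_X (A : Matrix ι ι K) (b : ι → K) (i : ι) :
    aff A b (X i) = ∑ j, C (A i j) * X j + C (b i) := by
  simp [aff]

theorem aff_comp (A B : Matrix ι ι K) (b c : ι → K) :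
    (aff A b).comp (aff B c) = aff (B * A) (B.mulVec b + c) := by
  apply MvPolynomial.algHom_ext
  intro i
  have hC : ∀ x, aff A b (C x) = C x := fun x => (aff A b).commutes x
  rw [AlgHom.comp_apply, aff_X, aff_X, map_add, map_sum]
  simp only [map_mul, hC, aff_X, Matrix.mul_apply, Matrix.mulVec, dotProduct, Pi.add_apply,
    C_add, map_sum, C_mul, mul_add, Finset.sum_add_distrib, Finset.mul_sum, Finset.sum_mul]
  rw [Finset.sum_comm]
  simp only [mul_assoc, add_assoc]

theorem small_affine {q : ℕ} (k : ι)
    (h : MvPolynomial ι K) (h1 : h ∈ supported K ({k}ᶜ : Set ι)) (d : ℕ)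
    (hd : d < (Fintype.card ι - 1) * (q - 1)) (h2 : h.totalDegree ≤ d) : Small q k h := by
  classical
  intro a ha
  refine ⟨coeff_supported h1 a ha, ?_⟩
  by_contra hcon
  push Not at hcon
  have h3 : a.sum (fun _ e => e) ≤ d := le_trans (le_totalDegree (mem_support_iff.2 ha)) h2
  rw [Finsupp.sum_fintype _ _ (by simp)] at h3
  have h4 : ∑ m ∈ Finset.univ.erase k, (q - 1) ≤ ∑ m ∈ Finset.univ.erase k, a m := by
    apply Finset.sum_le_sum
    intro m hm
    have := Nat.le_of_dvd (Nat.succ_pos _) (hcon m (Finset.mem_erase.1 hm).1)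
    omega
  have h5 : ∑ m ∈ Finset.univ.erase k, a m ≤ ∑ m, a m :=
    Finset.sum_le_sum_of_subset (Finset.erase_subset _ _)
  rw [Finset.sum_const, Finset.card_erase_of_mem (Finset.mem_univ k), Finset.card_univ,
    smul_eq_mul] at h4
  omega

theorem small_lin (p n : ℕ) [Fact p.Prime] [CharP K p]
    (hn : 1 < (Fintype.card ι - 1) * (p ^ n - 1)) (k : ι) (f : ι → K) (c : K) (hf : f k = 0) :
    Small (p ^ n) k (∑ j, C (f j) * X j + C c : MvPolynomial ι K) := by
  apply small_affine k _ _ 1 hn
  · refine (totalDegree_add _ _).trans ?_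
    rw [totalDegree_C, max_eq_left (Nat.zero_le _)]
    apply totalDegree_finsetSum_le
    intro j _
    refine (totalDegree_mul _ _).trans ?_
    rw [totalDegree_C, totalDegree_X]
  · apply Subalgebra.add_mem
    · apply Subalgebra.sum_mem
      intro j _
      by_cases hj : j = k
      · subst hj
        rw [hf, C_0, zero_mul]
        exact Subalgebra.zero_mem _
      · apply Subalgebra.mul_mem
        · exact Subalgebra.algebraMap_mem _ _
        · rw [X_mem_supported]
          simpa using hj
    · exact Subalgebra.algebraMap_mem _ _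

theorem aff_one_zero : aff (1 : Matrix ι ι K) 0 = AlgHom.id K _ := by
  apply MvPolynomial.algHom_ext
  intro i
  simp [aff_X, Matrix.one_apply]

theorem good_id (p n : ℕ) [Fact p.Prime] [CharP K p] (t : ι) :
    Good (p ^ n) t (AlgHom.id K (MvPolynomial ι K)) where
  surj := Function.surjective_id
  stab := fun f hf => hf
  det := by
    refine ⟨1, ?_⟩
    have : J (AlgHom.id K (MvPolynomial ι K)) = 1 := by
      refine Matrix.ext fun i j => ?_
      simp [J, pderiv_X, Matrix.one_apply, Pi.single_apply]
    rw [this, Matrix.det_one, C_1]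
  flux := Flux.id _ _

theorem good_trans (p n : ℕ) [Fact p.Prime] [CharP K p] (t : ι)
    (hn : 1 < (Fintype.card ι - 1) * (p ^ n - 1)) (b : ι → K) :
    Good (p ^ n) t (aff 1 b) := by
  induction b using Pi.single_induction with
  | zero => rw [aff_one_zero]; exact good_id p n t
  | add f g hf hg =>
    have := hf.comp hg
    rw [aff_comp, Matrix.one_mulVec, mul_one] at this
    exact this
  | single k c =>
    have h1 : aff (1 : Matrix ι ι K) (Pi.single k c) = elem k (C c) := by
      apply MvPolynomial.algHom_ext
      intro i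
      rw [aff_X]
      by_cases hi : i = k
      · subst hi
        simp [elem_X_self, Matrix.one_apply]
      · simp [elem_X_ne hi, Matrix.one_apply, hi]
    rw [h1]
    apply good_elem
    have := small_lin p n hn k 0 c rfl
    simpa using this

theorem good_mat (p n : ℕ) [Fact p.Prime] [CharP K p] (t : ι)
    (hn : 1 < (Fintype.card ι - 1) * (p ^ n - 1)) (A : Matrix ι ι K) (hA : A.det ≠ 0) :
    Good (p ^ n) t (aff A 0) := by
  refine Matrix.diagonal_transvection_induction_of_det_ne_zero
    (fun A => Good (p ^ n) t (aff A 0)) A hA ?_ ?_ ?_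
  · intro D hD
    have h1 : aff (Matrix.diagonal D) 0 = dg D := by
      apply MvPolynomial.algHom_ext
      intro i
      rw [aff_X, dg_X]
      simp [Matrix.diagonal_apply, apply_ite C, ite_mul]
    rw [h1]
    apply good_dg
    intro i
    rw [Matrix.det_diagonal] at hD
    exact Finset.prod_ne_zero_iff.1 hD i (Finset.mem_univ i)
  · intro s
    have h1 : aff s.toMatrix 0 = elem s.i (C s.c * X s.j) := by
      apply MvPolynomial.algHom_ext
      intro i
      rw [aff_X]
      by_cases hi : i = s.i
      · subst hi
        simp [elem_X_self, Matrix.TransvectionStruct.toMatrix, Matrix.transvection,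
          Matrix.one_apply, add_mul, Finset.sum_add_distrib, Matrix.single_apply, apply_ite C,
          ite_mul]
      · simp [elem_X_ne hi, Matrix.TransvectionStruct.toMatrix, Matrix.transvection,
          Matrix.one_apply, Ne.symm hi, apply_ite C, ite_mul]
    rw [h1]
    apply good_elem
    have := small_lin p n hn s.i (Pi.single s.j s.c) 0 (by simp [s.hij])
    simpa [Pi.single_apply, apply_ite C, ite_mul] using this
  · intro A B _ _ ihA ihB
    have := ihB.comp ihA
    rw [aff_comp] at this
    simpa using this

theorem good_aff (p n : ℕ) [Fact p.Prime] [CharP K p] (t : ι)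
    (hn : 1 < (Fintype.card ι - 1) * (p ^ n - 1)) (A : Matrix ι ι K) (hA : A.det ≠ 0)
    (b : ι → K) : Good (p ^ n) t (aff A b) := by
  have h1 := (good_mat p n t hn A hA).comp (good_trans p n t hn b)
  rw [aff_comp] at h1
  simpa using h1

end gens

end Pool.Agent.MP_119ce6_al
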