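import Mathlib
import Pool.Agent.MP_119ce6_al.Defs
import Pool.Agent.MP_119ce6_al.Gens

set_option autoImplicit false

namespace Pool.Agent.MP_119ce6_al

open MvPolynomial

universe u

section free

variable {K : Type u} [Field K] {n : ℕ}

/-- Abelianisation. -/
noncomputable def ab (K : Type u) [Field K] (n : ℕ) :
    FreeAlgebra K (Fin n) →ₐ[K] MvPolynomial (Fin n) K :=
  FreeAlgebra.lift K X

@[simp] theorem ab_ι (i : Fin n) : ab K n (FreeAlgebra.ι K i) = X i := by
  simp [ab]

/-- The induced polynomial endomorphism. -/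
noncomputable def ind (φ : AutFree K n) : MvPolynomial (Fin n) K →ₐ[K] MvPolynomial (Fin n) K :=
  aeval (fun i => ab K n (φ (FreeAlgebra.ι K i)))

theorem ind_X (φ : AutFree K n) (i : Fin n) :
    ind φ (X i) = ab K n (φ (FreeAlgebra.ι K i)) := by
  simp [ind]

theorem ind_ab (φ : AutFree K n) (a : FreeAlgebra K (Fin n)) :
    ind φ (ab K n a) = ab K n (φ a) := by
  have : (ind φ).comp (ab K n) = (ab K n).comp (φ : FreeAlgebra K (Fin n) →ₐ[K] _) := by
    apply FreeAlgebra.hom_ext
    funext i
    simp [ind_X]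
  exact DFunLike.congr_fun this a

theorem ind_mul (φ ψ : AutFree K n) : ind (φ * ψ) = (ind φ).comp (ind ψ) := by
  apply MvPolynomial.algHom_ext
  intro i
  rw [AlgHom.comp_apply, ind_X, ind_X, ind_ab]
  rfl

theorem ind_one : ind (1 : AutFree K n) = AlgHom.id K _ := by
  apply MvPolynomial.algHom_ext
  intro i
  rw [ind_X]
  simp

theorem ind_inv_eq (φ : AutFree K n) (G H : MvPolynomial (Fin n) K →ₐ[K] MvPolynomial (Fin n) K)
    (hG : ind φ = G) (hGH : G.comp H = AlgHom.id K _) : ind φ⁻¹ = H := by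
  have h1 : (ind φ⁻¹).comp (ind φ) = AlgHom.id K _ := by
    rw [← ind_mul, inv_mul_cancel, ind_one]
  calc ind φ⁻¹ = (ind φ⁻¹).comp (G.comp H) := by rw [hGH, AlgHom.comp_id]
    _ = ((ind φ⁻¹).comp (ind φ)).comp H := by rw [hG, AlgHom.comp_assoc]
    _ = H := by rw [h1, AlgHom.id_comp]

theorem good_of_affine (p m : ℕ) [Fact p.Prime] [CharP K p]
    (hn : 1 < (n - 1) * (p ^ m - 1)) (t : Fin n) (φ : AutFree K n) (hφ : IsAffine φ) :
    Good (p ^ m) t (ind φ) ∧ Good (p ^ m) t (ind φ⁻¹) := by
  obtain ⟨A, b, hA, h⟩ := hφ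
  have hn' : 1 < (Fintype.card (Fin n) - 1) * (p ^ m - 1) := by
    rwa [Fintype.card_fin]
  have h1 : ind φ = aff A b := by
    apply MvPolynomial.algHom_ext
    intro i
    rw [ind_X, h, aff_X, map_add, map_sum]
    simp [MvPolynomial.smul_eq_C_mul, MvPolynomial.algebraMap_eq]
  have hdet : IsUnit A.det := (Matrix.isUnit_iff_isUnit_det A).1 hA
  have h2 : ind φ⁻¹ = aff A⁻¹ (-(A⁻¹.mulVec b)) := by
    apply ind_inv_eq φ _ _ h1
    rw [aff_comp, Matrix.nonsing_inv_mul A hdet, add_neg_cancel, aff_one_zero]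
  rw [h1, h2]
  refine ⟨good_aff p m t hn' A hdet.ne_zero b, good_aff p m t hn' A⁻¹ ?_ _⟩
  rw [Matrix.det_nonsing_inv]
  simpa using hdet.ne_zero

theorem ab_word_mem {d : ℕ} {k : Fin n} {f : FreeAlgebra K (Fin n)}
    (hf : f ∈ Submodule.span K {w : FreeAlgebra K (Fin n) |
      ∃ l : List (Fin n), l.length ≤ d ∧ k ∉ l ∧ w = (l.map (FreeAlgebra.ι K)).prod}) :
    ab K n f ∈ supported K ({k}ᶜ : Set (Fin n)) ∧ (ab K n f).totalDegree ≤ d := by
  induction hf using Submodule.span_induction with
  | mem x hx =>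
    obtain ⟨l, hl, hk, rfl⟩ := hx
    rw [map_list_prod, List.map_map]
    have : (⇑(ab K n) ∘ FreeAlgebra.ι K) = (X : Fin n → MvPolynomial (Fin n) K) := by
      funext i
      simp
    rw [this]
    constructor
    · apply Subalgebra.list_prod_mem
      intro x hx
      rw [List.mem_map] at hx
      obtain ⟨i, hi, rfl⟩ := hx
      rw [X_mem_supported]
      rintro rfl
      exact hk hi
    · refine le_trans ?_ hl
      clear hl hk
      induction l with
      | nil => simp
      | cons a l ih =>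
        rw [List.map_cons, List.prod_cons, List.length_cons]
        refine (totalDegree_mul _ _).trans ?_
        rw [totalDegree_X]
        omega
  | zero => simp
  | add x y _ _ hx hy =>
    rw [map_add]
    exact ⟨Subalgebra.add_mem _ hx.1 hy.1, (totalDegree_add _ _).trans (max_le hx.2 hy.2)⟩
  | smul c x _ hx =>
    rw [map_smul]
    exact ⟨Subalgebra.smul_mem _ hx.1 c, (totalDegree_smul_le _ _).trans hx.2⟩

theorem good_of_elementary (p m : ℕ) [Fact p.Prime] [CharP K p] (d : ℕ)
    (hd : d < (n - 1) * (p ^ m - 1)) (t : Fin n) (φ : AutFree K n) (hφ : IsElementary d φ) :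
    Good (p ^ m) t (ind φ) ∧ Good (p ^ m) t (ind φ⁻¹) := by
  obtain ⟨k, f, hf, hk, hne⟩ := hφ
  obtain ⟨h1, h2⟩ := ab_word_mem hf
  have h3 : ind φ = elem k (ab K n f) := by
    apply MvPolynomial.algHom_ext
    intro i
    rw [ind_X]
    by_cases hi : i = k
    · subst hi
      rw [hk, elem_X_self, map_add, ab_ι]
    · rw [hne i hi, elem_X_ne hi, ab_ι]
  have h4 : ind φ⁻¹ = elem k (-ab K n f) := by
    apply ind_inv_eq φ _ _ h3
    apply MvPolynomial.algHom_ext
    intro i
    by_cases hi : i = k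
    · subst hi
      simp [elem_X_self, elem_supported h1]
    · simp [elem_X_ne hi]
  have hd' : d < (Fintype.card (Fin n) - 1) * (p ^ m - 1) := by
    rwa [Fintype.card_fin]
  rw [h3, h4]
  refine ⟨good_elem p m t k _ (small_affine k _ h1 d hd' h2), good_elem p m t k _
    (small_affine k _ (Subalgebra.neg_mem _ h1) d hd' ?_)⟩
  rwa [totalDegree_neg]

theorem good_of_mem_closure (p m : ℕ) [Fact p.Prime] [CharP K p] (d : ℕ)
    (hn : 1 < (n - 1) * (p ^ m - 1))
    (hd : d < (n - 1) * (p ^ m - 1)) (t : Fin n) (φ : AutFree K n)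
    (hφ : φ ∈ Subgroup.closure {ψ : AutFree K n | IsAffine ψ ∨ IsElementary d ψ}) :
    Good (p ^ m) t (ind φ) := by
  induction hφ using Subgroup.closure_induction'' with
  | mem x hx =>
    rcases hx with hx | hx
    · exact (good_of_affine p m hn t x hx).1
    · exact (good_of_elementary p m d hd t x hx).1
  | inv_mem x hx =>
    rcases hx with hx | hx
    · exact (good_of_affine p m hn t x hx).2
    · exact (good_of_elementary p m d hd t x hx).2
  | one => rw [ind_one]; exact good_id p m t
  | mul x y _ _ hx hy => rw [ind_mul]; exact hx.comp hy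

theorem not_flux (q : ℕ) (hq : 1 < q) (t s : Fin n) (hst : s ≠ t)
    (h : MvPolynomial (Fin n) K)
    (hh : h = (∏ i ∈ Finset.univ.erase t, X i) ^ (q - 1)) : ¬ Flux q t (elem t h) := by
  classical
  rintro ⟨c, hc⟩
  have hsup : h ∈ supported K ({t}ᶜ : Set (Fin n)) := by
    rw [hh]
    apply Subalgebra.pow_mem
    apply Subalgebra.prod_mem
    intro i hi
    rw [X_mem_supported]
    simpa using (Finset.mem_erase.1 hi).1
  have h1 := hc (X t)
  rw [adj_elem t h hsup] at h1
  have h2 : ∑ i, pderiv i (X t) * ((elem t h) (X t) *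
      (1 - Matrix.replicateCol Unit (Pi.single t 1 : Fin n → MvPolynomial (Fin n) K) *
        Matrix.replicateRow Unit (fun j => pderiv j h) :
          Matrix (Fin n) (Fin n) (MvPolynomial (Fin n) K)) i t) = X t + h := by
    simp only [Matrix.sub_apply, Matrix.mul_apply, Matrix.replicateCol_apply,
      Matrix.replicateRow_apply, pderiv_supported hsup, mul_zero,
      Finset.sum_const_zero, sub_zero, elem_X_self, Matrix.one_apply]
    simp
  rw [h2, pderiv_X_self, one_mul] at h1
  let e : Fin n →₀ ℕ := Finsupp.equivFunOnFinite.symm fun _ => q - 1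
  have he : ∀ i, e i = q - 1 := fun i => rfl
  have h3 := h1 e (fun i => by rw [he]; exact ⟨1, by omega⟩)
  have h4 : X t ^ (q - 1) * (X t + h - C c * X t) =
      monomial e 1 + C (1 - c) * X t ^ q := by
    have h5 : (monomial e (1 : K)) = X t ^ (q - 1) * h := by
      rw [monomial_eq, Finsupp.prod_fintype _ _ (by simp),
        ← Finset.mul_prod_erase Finset.univ _ (Finset.mem_univ t), C_1, one_mul, hh]
      simp only [he]
      rw [Finset.prod_pow]
    rw [h5, C_sub, C_1]
    have : (X t : MvPolynomial (Fin n) K) ^ q = X t ^ (q - 1) * X t := by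
      rw [← pow_succ]
      congr 1
      omega
    rw [this]
    ring
  rw [h4, coeff_add, coeff_monomial, if_pos rfl, coeff_C_mul, X_pow_eq_monomial, coeff_monomial,
    if_neg] at h3
  · simp at h3
  · intro h6
    have h7 := DFunLike.congr_fun h6 s
    rw [he, Finsupp.single_apply, if_neg hst.symm] at h7
    omega

/-- Elementary automorphisms exist. -/
theorem exists_elementary (k : Fin n) (f : FreeAlgebra K (Fin n))
    (hf : f ∈ Algebra.adjoin K {w : FreeAlgebra K (Fin n) | ∃ i, i ≠ k ∧ w = FreeAlgebra.ι K i}) :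
    ∃ φ : AutFree K n, φ (FreeAlgebra.ι K k) = FreeAlgebra.ι K k + f ∧
      ∀ i, i ≠ k → φ (FreeAlgebra.ι K i) = FreeAlgebra.ι K i := by
  let g : FreeAlgebra K (Fin n) → (FreeAlgebra K (Fin n) →ₐ[K] FreeAlgebra K (Fin n)) :=
    fun f => FreeAlgebra.lift K (Function.update (FreeAlgebra.ι K) k (FreeAlgebra.ι K k + f))
  have g1 : ∀ f, g f (FreeAlgebra.ι K k) = FreeAlgebra.ι K k + f := by
    intro f
    simp [g]
  have g2 : ∀ f i, i ≠ k → g f (FreeAlgebra.ι K i) = FreeAlgebra.ι K i := by
    intro f i hi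
    simp [g, Function.update_of_ne hi]
  have g3 : ∀ f', g f' f = f := by
    intro f'
    induction hf using Algebra.adjoin_induction with
    | mem x hx =>
      obtain ⟨i, hi, rfl⟩ := hx
      exact g2 f' i hi
    | algebraMap r => exact (g f').commutes r
    | add x y _ _ hx hy => rw [map_add, hx, hy]
    | mul x y _ _ hx hy => rw [map_mul, hx, hy]
  have g4 : (g f).comp (g (-f)) = AlgHom.id K _ := by
    apply FreeAlgebra.hom_ext
    funext i
    by_cases hi : i = k
    · subst hi
      simp [g1, g3]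
    · simp [g2 _ i hi]
  have g5 : (g (-f)).comp (g f) = AlgHom.id K _ := by
    apply FreeAlgebra.hom_ext
    funext i
    by_cases hi : i = k
    · subst hi
      simp [g1, g3]
    · simp [g2 _ i hi]
  exact ⟨AlgEquiv.ofAlgHom (g f) (g (-f)) g4 g5, g1 f, fun i hi => g2 f i hi⟩

end free

end Pool.Agent.MP_119ce6_al
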